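import Mathlib

/-!
# o-conjugacy in finite and in group-bound semigroups

Let `S` be a finite semigroup, or more generally a semigroup in which every element has a power
lying in a subgroup. If `∼ₒ` is a congruence on `S`, then `S/∼ₒ` is a group; in particular it is
cancellative.
-/

set_option autoImplicit false

namespace Pool.Agent.Results.MP_393150_al.GroupBoundQuotient

universe u

variable {S : Type u} [Semigroup S]

/-- o-conjugacy: `a ∼ₒ b` if `a g = g b` and `b h = h a` for some `g`, `h` in `S` -/
def OConj (a b : S) : Prop :=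
  (∃ g : S, a * g = g * b) ∧ ∃ h : S, b * h = h * a

variable (S) in
/-- `∼ₒ` is a congruence on `S` (it is an equivalence relation on every semigroup, see `OConj.equiv`) -/
def OConjIsCongruence : Prop :=
  ∀ a b c d : S, OConj a b → OConj c d → OConj (a * c) (b * d)

/-- `pw a n` is the power `a ^ (n + 1)` -/
def pw (a : S) : ℕ → S
  | 0 => a
  | n + 1 => pw a n * a

variable (S) in
/-- every element `a` of `S` has a power `x = a ^ (n + 1)` which lies in a subgroup of `S`: there is
an idempotent `e` with `e x = x = x e` and an element `y` with `x y = e = y x` -/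
def GroupBound : Prop :=
  ∀ a : S, ∃ (n : ℕ) (e y : S), e * e = e ∧ e * pw a n = pw a n ∧ pw a n * e = pw a n ∧
    pw a n * y = e ∧ y * pw a n = e

theorem OConj.refl (a : S) : OConj a a := ⟨⟨a, rfl⟩, ⟨a, rfl⟩⟩

theorem OConj.symm {a b : S} (h : OConj a b) : OConj b a := ⟨h.2, h.1⟩

theorem OConj.trans {a b c : S} (h : OConj a b) (h' : OConj b c) : OConj a c := by
  obtain ⟨⟨g, hg⟩, ⟨k, hk⟩⟩ := h
  obtain ⟨⟨g', hg'⟩, ⟨k', hk'⟩⟩ := h'
  refine ⟨⟨g * g', ?_⟩, ⟨k' * k, ?_⟩⟩
  · rw [← mul_assoc, hg, mul_assoc, hg', mul_assoc]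
  · rw [← mul_assoc, hk', mul_assoc, hk, mul_assoc]

/-- `∼ₒ` is an equivalence relation -/
theorem OConj.equiv : Equivalence (OConj : S → S → Prop) :=
  ⟨OConj.refl, OConj.symm, OConj.trans⟩

/-- any two idempotents are o-conjugate -/
theorem idem {e f : S} (he : e * e = e) (hf : f * f = f) : OConj e f :=
  ⟨⟨e * f, by rw [← mul_assoc, he, mul_assoc, hf]⟩, ⟨f * e, by rw [← mul_assoc, hf, mul_assoc, he]⟩⟩

theorem pw_comm (a : S) (n : ℕ) : a * pw a n = pw a n * a := by
  induction n with
  | zero => rfl
  | succ n ih => rw [pw, ← mul_assoc, ih]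

theorem pw_mul (a : S) (m n : ℕ) : pw a m * pw a n = pw a (m + n + 1) := by
  induction n with
  | zero => rfl
  | succ n ih =>
    rw [pw, ← mul_assoc, ih]
    rfl

/-- an element of a finite semigroup has an idempotent power -/
theorem exists_idem_pw [Finite S] (a : S) : ∃ n, pw a n * pw a n = pw a n := by
  obtain ⟨i, j, hij, h⟩ := Finite.exists_ne_map_eq_of_infinite (pw a)
  wlog hlt : i < j generalizing i j
  · exact this j i hij.symm h.symm (by omega)
  obtain ⟨p, rfl⟩ := Nat.exists_eq_add_of_lt hlt
  -- period `p + 1`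
  have key : ∀ n, i ≤ n → pw a (n + (p + 1)) = pw a n := by
    intro n hn
    obtain ⟨d, rfl⟩ := Nat.exists_eq_add_of_le hn
    clear hn
    induction d with
    | zero => rw [Nat.add_zero, ← Nat.add_assoc]; exact h.symm
    | succ d ih =>
      have e1 : i + (d + 1) + (p + 1) = (i + d + (p + 1)) + 1 := by ring
      have e2 : i + (d + 1) = i + d + 1 := rfl
      rw [e1, e2, pw, pw, ih]
  have key2 : ∀ k n, i ≤ n → pw a (n + k * (p + 1)) = pw a n := by
    intro k
    induction k with
    | zero => intro n _; rw [Nat.zero_mul, Nat.add_zero]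
    | succ k ih =>
      intro n hn
      have e : n + (k + 1) * (p + 1) = (n + k * (p + 1)) + (p + 1) := by ring
      rw [e, key _ (by omega), ih n hn]
  refine ⟨i + i * p + p, ?_⟩
  rw [pw_mul]
  have e : i + i * p + p + (i + i * p + p) + 1 = (i + i * p + p) + (i + 1) * (p + 1) := by ring
  rw [e, key2 _ _ (by nlinarith)]

theorem groupBound_of_finite [Finite S] : GroupBound S := by
  intro a
  obtain ⟨n, hn⟩ := exists_idem_pw a
  exact ⟨n, pw a n, pw a n, hn, hn, hn, hn, hn⟩

/-- the main step: there is an idempotent `e` with `a ∼ₒ a e`, `a ∼ₒ e a`, and an element `b` with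
`b a = e` -/
theorem step (hS : GroupBound S) (a : S) : ∃ e b : S, e * e = e ∧ OConj a (a * e) ∧
    OConj a (e * a) ∧ b * a = e := by
  obtain ⟨n, e, y, he, hex, hxe, hxy, hyx⟩ := hS a
  set x := pw a n with hx
  have hax : a * x = x * a := pw_comm a n
  have h1 : a * e = e * a * e := by
    calc a * e = a * x * y := by rw [mul_assoc, hxy]
      _ = x * a * y := by rw [hax]
      _ = e * x * a * y := by rw [hex]
      _ = e * (x * a) * y := by rw [mul_assoc e x a]
      _ = e * (a * x) * y := by rw [hax]
      _ = e * a * (x * y) := by rw [← mul_assoc e a x, mul_assoc (e * a) x y]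
      _ = e * a * e := by rw [hxy]
  have h2 : e * a = e * a * e := by
    calc e * a = y * (x * a) := by rw [← mul_assoc, hyx]
      _ = y * (a * x) := by rw [hax]
      _ = y * (a * (x * e)) := by rw [hxe]
      _ = y * (a * x) * e := by rw [← mul_assoc a x e, ← mul_assoc y (a * x) e]
      _ = y * (x * a) * e := by rw [hax]
      _ = e * a * e := by rw [← mul_assoc y x a, hyx]
  have h3 : a * e = e * a := h1.trans h2.symm
  have h4 : OConj a (a * e) := by
    refine ⟨⟨x, ?_⟩, ⟨x, ?_⟩⟩
    · rw [← mul_assoc, ← hax, mul_assoc, hxe]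
    · rw [mul_assoc, hex, hax]
  refine ⟨e, ?_⟩
  cases n with
  | zero => exact ⟨y, he, h4, by rw [← h3]; exact h4, hyx⟩
  | succ n =>
    refine ⟨y * pw a n, he, h4, by rw [← h3]; exact h4, ?_⟩
    rw [mul_assoc]
    exact hyx

/-- Let `S` be a nonempty semigroup which is finite or, more generally, in which every element has a
power lying in a subgroup. If `∼ₒ` is a congruence on `S`, then the quotient semigroup `S/∼ₒ` is a
group: there are a group `G` and a surjective homomorphism `π : S → G` with `π a = π b` if and only if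
`a ∼ₒ b`. -/
theorem result (S : Type u) [Semigroup S] [Nonempty S] (hS : Finite S ∨ GroupBound S)
    (hc : OConjIsCongruence S) :
    ∃ (G : Type u) (_ : Group G) (π : S → G), (∀ a b : S, π (a * b) = π a * π b) ∧
      Function.Surjective π ∧ ∀ a b : S, π a = π b ↔ OConj a b := by
  have hS : GroupBound S := by
    rcases hS with h | h
    · exact groupBound_of_finite
    · exact h
  let s : Setoid S := ⟨OConj, OConj.equiv⟩
  let a₀ : S := Classical.arbitrary S
  obtain ⟨e₀, -, he₀, -, -, -⟩ := step hS a₀
  choose E B hE h1 h2 h3 using fun a : S => step hS a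
  let mul' : Quotient s → Quotient s → Quotient s :=
    Quotient.map₂ (· * ·) (fun a b h c d h' => hc a b c d h h')
  have hmul : ∀ a b : S, mul' (Quotient.mk s a) (Quotient.mk s b) = Quotient.mk s (a * b) :=
    fun a b => rfl
  have hone : ∀ e : S, e * e = e → Quotient.mk s e = Quotient.mk s e₀ :=
    fun e he => Quotient.sound (idem he he₀)
  let inv' : Quotient s → Quotient s := fun q => Quotient.mk s (B q.out)
  letI iM : Mul (Quotient s) := ⟨mul'⟩
  letI iO : One (Quotient s) := ⟨Quotient.mk s e₀⟩
  letI iI : Inv (Quotient s) := ⟨inv'⟩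
  have hassoc : ∀ p q r : Quotient s, p * q * r = p * (q * r) := by
    intro p q r
    induction p using Quotient.inductionOn with | _ p => ?_
    induction q using Quotient.inductionOn with | _ q => ?_
    induction r using Quotient.inductionOn with | _ r => ?_
    exact congrArg (Quotient.mk s) (mul_assoc p q r)
  have hone_mul : ∀ p : Quotient s, 1 * p = p := by
    intro p
    induction p using Quotient.inductionOn with | _ p => ?_
    show mul' (Quotient.mk s e₀) (Quotient.mk s p) = Quotient.mk s p
    rw [← hone (E p) (hE p), hmul]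
    exact (Quotient.sound (h2 p)).symm
  have hinv : ∀ p : Quotient s, p⁻¹ * p = 1 := by
    intro p
    have e : p = Quotient.mk s p.out := (Quotient.out_eq p).symm
    have : mul' (Quotient.mk s (B p.out)) (Quotient.mk s p.out) = Quotient.mk s e₀ := by
      rw [hmul, h3]
      exact hone _ (hE _)
    calc p⁻¹ * p = mul' (Quotient.mk s (B p.out)) p := rfl
      _ = mul' (Quotient.mk s (B p.out)) (Quotient.mk s p.out) := by rw [← e]
      _ = 1 := this
  letI : Group (Quotient s) := Group.ofLeftAxioms hassoc hone_mul hinv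
  refine ⟨Quotient s, inferInstance, Quotient.mk s, fun a b => rfl, Quotient.mk_surjective, ?_⟩
  intro a b
  exact ⟨fun h => Quotient.exact h, fun h => Quotient.sound h⟩

end Pool.Agent.Results.MP_393150_al.GroupBoundQuotient
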